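import Pool.Agent.Helper64.PQ.Goals
import Mathlib.Analysis.Complex.CoveringMap

set_option autoImplicit false

open Topology Filter Set Metric

namespace Pool.Agent.Helper59.PQ

open Pool.Agent.Helper64.PQ

/-- A continuous logarithm on the plane. -/
theorem clog (G : ℝ × ℝ → ℂ) (hG : Continuous G) (h0 : ∀ p, G p ≠ 0) :
    ∃ L : ℝ × ℝ → ℂ, Continuous L ∧ ∀ p, Complex.exp (L p) = G p := by
  have cov := Complex.isCoveringMap_exp
  let f : C(ℝ × ℝ, {z : ℂ // z ≠ 0}) := ⟨fun p => ⟨G p, h0 p⟩, by fun_prop⟩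
  obtain ⟨L, ⟨h1, h2⟩, -⟩ := cov.existsUnique_continuousMap_lifts f (0, 0)
    (Complex.log (G (0, 0))) (by
      apply Subtype.ext
      exact (Complex.exp_log (h0 _)))
  refine ⟨L, L.continuous, fun p => ?_⟩
  have := congr_fun h2 p
  exact congrArg Subtype.val this

/-- A continuous angle with nonnegative sine which starts in `[0, π]` ends there. -/
theorem stay (h : ℝ → ℝ) (hc : Continuous h) (hs : ∀ t ∈ Icc (0 : ℝ) 1, 0 ≤ Real.sin (h t))
    (h0 : 0 ≤ h 0) (h1 : h 0 ≤ Real.pi) : 0 ≤ h 1 ∧ h 1 ≤ Real.pi := by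
  have hpi := Real.pi_pos
  constructor
  · by_contra hn
    push Not at hn
    set e : ℝ := min (-h 1) (Real.pi / 2) with he
    have he0 : 0 < e := lt_min (by linarith) (by linarith)
    have hmem : -e ∈ Icc (h 1) (h 0) := ⟨by linarith [min_le_left (-h 1) (Real.pi / 2)],
      by linarith⟩
    obtain ⟨t, ht, hte⟩ := intermediate_value_Icc' zero_le_one hc.continuousOn hmem
    have h2 := hs t ht
    rw [hte, Real.sin_neg] at h2
    have h3 : 0 < Real.sin e := Real.sin_pos_of_pos_of_lt_pi he0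
      (by linarith [min_le_right (-h 1) (Real.pi / 2)])
    linarith
  · by_contra hn
    push Not at hn
    set e : ℝ := min (h 1 - Real.pi) (Real.pi / 2) with he
    have he0 : 0 < e := lt_min (by linarith) (by linarith)
    have hmem : e + Real.pi ∈ Icc (h 0) (h 1) := ⟨by linarith,
      by linarith [min_le_left (h 1 - Real.pi) (Real.pi / 2)]⟩
    obtain ⟨t, ht, hte⟩ := intermediate_value_Icc zero_le_one hc.continuousOn hmem
    have h2 := hs t ht
    rw [hte, Real.sin_add_pi] at h2
    have h3 : 0 < Real.sin e := Real.sin_pos_of_pos_of_lt_pi he0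
      (by linarith [min_le_right (h 1 - Real.pi) (Real.pi / 2)])
    linarith

theorem goalC1 : GoalC1 := by
  intro f g b a b' hf hg hba hab' hf1 hfi hgi hfg hg0 hg1
  by_contra hcon
  push Not at hcon
  have hpi := Real.pi_pos
  -- extend to the whole plane
  let pr : ℝ → ℝ := fun t => projIcc (0 : ℝ) 1 zero_le_one t
  have hprc : Continuous pr := continuous_subtype_val.comp continuous_projIcc
  have hprm : ∀ t, pr t ∈ Icc (0 : ℝ) 1 := fun t => (projIcc (0 : ℝ) 1 zero_le_one t).2
  have hpr : ∀ t ∈ Icc (0 : ℝ) 1, pr t = t := fun t ht => by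
    simp only [pr]
    rw [projIcc_of_mem zero_le_one ht]
  have hfc : Continuous fun t => f (pr t) := hf.comp_continuous hprc hprm
  have hgc : Continuous fun t => g (pr t) := hg.comp_continuous hprc hprm
  let G : ℝ × ℝ → ℂ := fun p => f (pr p.1) - g (pr p.2)
  have hG : Continuous G := (hfc.comp continuous_fst).sub (hgc.comp continuous_snd)
  obtain ⟨L, hL, hLe⟩ := clog G hG (fun p h =>
    hcon _ (hprm p.1) _ (hprm p.2) (sub_eq_zero.1 h))
  have hGv : ∀ s ∈ Icc (0 : ℝ) 1, ∀ s' ∈ Icc (0 : ℝ) 1, G (s, s') = f s - g s' := by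
    intro s hs s' hs'
    simp only [G]
    rw [hpr s hs, hpr s' hs']
  have him : ∀ p, (G p).im = Real.exp (L p).re * Real.sin (L p).im := by
    intro p
    rw [← hLe, Complex.exp_im]
  have hre : ∀ p, (G p).re = Real.exp (L p).re * Real.cos (L p).im := by
    intro p
    rw [← hLe, Complex.exp_re]
  have m0 : (0 : ℝ) ∈ Icc (0 : ℝ) 1 := ⟨le_rfl, zero_le_one⟩
  have m1 : (1 : ℝ) ∈ Icc (0 : ℝ) 1 := ⟨zero_le_one, le_rfl⟩
  have hpos : ∀ p, 0 ≤ (G p).im → 0 ≤ Real.sin (L p).im := by
    intro p hp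
    rw [him] at hp
    exact nonneg_of_mul_nonneg_right hp (Real.exp_pos _)
  have hneg : ∀ p, (G p).im ≤ 0 → Real.sin (L p).im ≤ 0 := by
    intro p hp
    rw [him] at hp
    exact nonpos_of_mul_nonpos_right hp (Real.exp_pos _)
  -- values at the two corners
  have c10 : G (1, 0) = ((a - b : ℝ) : ℂ) := by
    rw [hGv 1 m1 0 m0, hf1, hg0]; push_cast; ring
  have c11 : G (1, 1) = ((a - b' : ℝ) : ℂ) := by
    rw [hGv 1 m1 1 m1, hf1, hg1]; push_cast; ring
  have s10 : Real.sin (L (1, 0)).im = 0 := by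
    have h := him (1, 0)
    rw [c10, Complex.ofReal_im] at h
    rcases mul_eq_zero.1 h.symm with h | h
    · exact absurd h (Real.exp_pos _).ne'
    · exact h
  have k10 : 0 < Real.cos (L (1, 0)).im := by
    have h := hre (1, 0)
    rw [c10, Complex.ofReal_re] at h
    have h2 : 0 < Real.exp (L (1, 0)).re * Real.cos (L (1, 0)).im := by
      rw [← h]; linarith
    exact (mul_pos_iff_of_pos_left (Real.exp_pos _)).1 h2
  have k11 : Real.cos (L (1, 1)).im < 0 := by
    have h := hre (1, 1)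
    rw [c11, Complex.ofReal_re] at h
    have h2 : Real.exp (L (1, 1)).re * Real.cos (L (1, 1)).im < 0 := by
      rw [← h]; linarith
    by_contra hn
    push Not at hn
    exact absurd (mul_nonneg (Real.exp_pos _).le hn) (not_le.2 h2)
  have hcos1 : Real.cos (L (1, 0)).im = 1 := by
    have := Real.sin_sq_add_cos_sq (L (1, 0)).im
    rw [s10] at this
    nlinarith
  obtain ⟨m, hm⟩ := (Real.cos_eq_one_iff _).1 hcos1
  -- the normalized angle
  let θ : ℝ × ℝ → ℝ := fun p => (L p).im - m * (2 * Real.pi)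
  have hθ : Continuous θ := (Complex.continuous_im.comp hL).sub continuous_const
  have hθs : ∀ p, Real.sin (θ p) = Real.sin (L p).im := by
    intro p
    simp only [θ]
    rw [Real.sin_sub_int_mul_two_pi]
  have hθc : ∀ p, Real.cos (θ p) = Real.cos (L p).im := by
    intro p
    simp only [θ]
    rw [Real.cos_sub_int_mul_two_pi]
  have hθ10 : θ (1, 0) = 0 := by
    simp only [θ]
    rw [← hm]; ring
  have mem' : ∀ t ∈ Icc (0 : ℝ) 1, 1 - t ∈ Icc (0 : ℝ) 1 := fun t ht =>
    ⟨by linarith [ht.2], by linarith [ht.1]⟩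
  -- first side
  have e1 := stay (fun t => θ (1 - t, 0)) (by fun_prop) (fun t ht => by
    rw [hθs]
    apply hpos
    rw [hGv _ (mem' t ht) 0 m0, Complex.sub_im, hg0, Complex.ofReal_im, sub_zero]
    exact hfi _ (mem' t ht)) (by simp [hθ10]) (by simp [hθ10, hpi.le])
  simp only [sub_self] at e1
  have e2 := stay (fun t => θ (0, t)) (by fun_prop) (fun t ht => by
    rw [hθs]
    apply hpos
    rw [hGv 0 m0 t ht, Complex.sub_im]
    linarith [hfg t ht]) e1.1 e1.2
  have e3 := stay (fun t => θ (t, 1)) (by fun_prop) (fun t ht => by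
    rw [hθs]
    apply hpos
    rw [hGv t ht 1 m1, Complex.sub_im, hg1, Complex.ofReal_im, sub_zero]
    exact hfi t ht) e2.1 e2.2
  have e4 := stay (fun t => - θ (1, t)) (by fun_prop) (fun t ht => by
    rw [Real.sin_neg, hθs, neg_nonneg]
    apply hneg
    rw [hGv 1 m1 t ht, Complex.sub_im, hf1, Complex.ofReal_im, zero_sub]
    linarith [hgi t ht]) (by simp [hθ10]) (by simp [hθ10, hpi.le])
  have e5 : θ (1, 1) = 0 := le_antisymm (by linarith [e4.1]) e3.1
  have e6 := hθc (1, 1)
  rw [e5, Real.cos_zero] at e6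
  linarith

end Pool.Agent.Helper59.PQ
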